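import Pool.Agent.H57.HurGrp
import Pool.Agent.H57.MengerAn

set_option autoImplicit false

namespace Pool.Agent.Results.MP_88659e_gt.Independent

open Cardinal Pool.Agent.H57.HurGrp

theorem result :
    ((𝔠 : Cardinal.{0}) = ℵ₁ → HurewiczGenerated) ∧ (MengerProductive → ¬ HurewiczGenerated) :=
  ⟨fun h => by
    obtain ⟨X, h1, h2⟩ := yes h
    exact ⟨G, inferInstance, {}, inferInstance, inferInstance, X, h1 ▸ H_borel,
      h1 ▸ H_not, h2⟩, no⟩

end Pool.Agent.Results.MP_88659e_gt.Independent
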